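import Mathlib

set_option autoImplicit false

namespace Pool.Agent.Results.MP_c566a2_co.Paths

open Finset SimpleGraph

/-- `c` is a `p`-tuple walk-nonrepetitive `q`-colouring of `G` (walks are indexed from `0`). -/
def Good {V : Type} (G : SimpleGraph V) (p q : ℕ) (c : V → Finset (Fin q)) : Prop :=
  (∀ v, (c v).card = p) ∧
  ∀ l : ℕ, 1 ≤ l → ∀ w : ℕ → V, (∀ i, i + 1 < 2 * l → G.Adj (w i) (w (i + 1))) →
    (∃ i < l, w i ≠ w (l + i)) →
    ∀ a : ℕ → Fin q, (∀ i < 2 * l, a i ∈ c (w i)) → ∃ i < l, a i ≠ a (l + i)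

/-- The fractional walk-nonrepetitive chromatic number. -/
noncomputable def piW {V : Type} (G : SimpleGraph V) : ℝ :=
  sInf {x | ∃ p q : ℕ, 1 ≤ p ∧ p < q ∧ (∃ c, Good G p q c) ∧ x = (q : ℝ) / p}

section lower
variable {V : Type} {G : SimpleGraph V} {p q : ℕ} {c : V → Finset (Fin q)}

theorem d1 (h : Good G p q c) {u v : V} (huv : G.Adj u v) : Disjoint (c u) (c v) := by
  rw [Finset.disjoint_left]
  intro a hu hv
  obtain ⟨i, hi, hne⟩ := h.2 1 le_rfl (fun i => [u, v].getD i u)
    (fun i hi => by obtain rfl : i = 0 := by omega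
                    exact huv) ⟨0, one_pos, huv.ne⟩ (fun _ => a)
    (fun i hi => by interval_cases i <;> assumption)
  exact hne rfl

theorem d2 (h : Good G p q c) (hp : 1 ≤ p) {u v w : V} (huv : G.Adj u v) (hvw : G.Adj v w)
    (huw : u ≠ w) : Disjoint (c u) (c w) := by
  rw [Finset.disjoint_left]
  intro a hu hw
  obtain ⟨b, hb⟩ : (c v).Nonempty := card_pos.1 (by rw [h.1]; exact hp)
  obtain ⟨i, hi, hne⟩ := h.2 2 one_le_two (fun i => [u, v, w, v].getD i u)
    (fun i hi => by
      have : i < 3 := by omega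
      interval_cases i
      exacts [huv, hvw, hvw.symm]) ⟨0, two_pos, huw⟩ (fun i => [a, b, a, b].getD i a)
    (fun i hi => by interval_cases i <;> assumption)
  interval_cases i <;> exact hne rfl

theorem three (h : Good G p q c) (hp : 1 ≤ p) {u v w : V} (huv : G.Adj u v) (hvw : G.Adj v w)
    (huw : u ≠ w) : 3 * p ≤ q := by
  have := card_le_univ (c u ∪ c v ∪ c w)
  rw [card_union_of_disjoint (disjoint_union_left.2 ⟨d2 h hp huv hvw huw, d1 h hvw⟩),
    card_union_of_disjoint (d1 h huv), h.1, h.1, h.1, Fintype.card_fin] at this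
  omega

theorem four (h : Good G p q c) (hp : 1 ≤ p) {u v w x : V} (huv : G.Adj u v) (hvw : G.Adj v w)
    (hwx : G.Adj w x) (huw : u ≠ w) (hvx : v ≠ x) (hd : Disjoint (c u) (c x)) : 4 * p ≤ q := by
  have := card_le_univ (c u ∪ c v ∪ c w ∪ c x)
  rw [card_union_of_disjoint (disjoint_union_left.2 ⟨disjoint_union_left.2
      ⟨hd, d2 h hp hvw hwx hvx⟩, d1 h hwx⟩),
    card_union_of_disjoint (disjoint_union_left.2 ⟨d2 h hp huv hvw huw, d1 h hvw⟩),
    card_union_of_disjoint (d1 h huv), h.1, h.1, h.1, h.1, Fintype.card_fin] at this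
  omega

theorem six (h : Good G p q c) (hp : 1 ≤ p) (v : ℕ → V) (ha : ∀ i < 5, G.Adj (v i) (v (i + 1)))
    (hi : ∀ i < 6, ∀ j < 6, v i = v j → i = j) : 4 * p ≤ q := by
  by_contra hc
  have key : ∀ k < 3, ∃ a, a ∈ c (v k) ∧ a ∈ c (v (k + 3)) := fun k hk => by
    by_contra hn
    refine hc (four h hp (ha k (by omega)) (ha (k + 1) (by omega)) (ha (k + 2) (by omega))
      (fun e => ?_) (fun e => ?_) (disjoint_left.2 fun a h1 h2 => hn ⟨a, h1, h2⟩))
    · have := hi _ (by omega) _ (by omega) e; omega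
    · have := hi _ (by omega) _ (by omega) e; omega
  obtain ⟨a, a1, a2⟩ := key 0 (by omega)
  obtain ⟨b, b1, b2⟩ := key 1 (by omega)
  obtain ⟨e, e1, e2⟩ := key 2 (by omega)
  obtain ⟨i, hi, hne⟩ := h.2 3 (by omega) v (fun i hi => ha i (by omega))
    ⟨0, by omega, fun e => by have := hi _ (by omega) _ (by omega) e; omega⟩
    (fun i => [a, b, e, a, b, e].getD i a) (fun i hi => by interval_cases i <;> assumption)
  interval_cases i <;> exact hne rfl

end lower

theorem ivt (x : ℕ → ℤ) (m : ℕ) (h : ∀ i < m, x (i + 1) = x i + 1 ∨ x (i + 1) = x i - 1) (y : ℤ)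
    (hy : (x 0 ≤ y ∧ y ≤ x m) ∨ (x m ≤ y ∧ y ≤ x 0)) : ∃ i ≤ m, x i = y := by
  induction m with
  | zero => exact ⟨0, le_rfl, by omega⟩
  | succ m ih =>
    by_cases e : x (m + 1) = y
    · exact ⟨m + 1, le_rfl, e⟩
    · have := h m (by omega)
      obtain ⟨i, hi, e⟩ := ih (fun i hi => h i (by omega)) (by omega)
      exact ⟨i, by omega, e⟩

theorem walk {α : Type} (n : ℤ) (col : ℤ → α)
    (hA : ∀ i, 0 ≤ i → col i ≠ col (i + 1) ∧ col i ≠ col (i + 2))
    (hB : ∀ i d, 0 ≤ i → 0 < d → i + 2 * d ≤ n → ∃ j, i ≤ j ∧ j < i + d ∧ col j ≠ col (j + d))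
    (m : ℕ) (x : ℕ → ℤ) (hx : ∀ i, 0 ≤ x i ∧ x i < n)
    (hs : ∀ i, i + 1 < 2 * (m + 1) → x (i + 1) = x i + 1 ∨ x (i + 1) = x i - 1)
    (hc : ∀ i ≤ m, col (x i) = col (x (m + 1 + i))) : ∀ i ≤ m, x i = x (m + 1 + i) := by
  have near : ∀ a b, col (x a) = col (x b) → x a ≠ x b + 1 ∧ x a ≠ x b + 2 := fun a b e =>
    ⟨fun h => (hA _ (hx b).1).1 (by rw [← h, e]), fun h => (hA _ (hx b).1).2 (by rw [← h, e])⟩
  have turn : ∀ i, i + 2 ≤ m → (x (i + 2) = x i ↔ x (m + 1 + (i + 2)) = x (m + 1 + i)) := by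
    intro i hi
    have h1 := hs i (by omega)
    have h2 := hs (i + 1) (by omega)
    have h3 := hs (m + 1 + i) (by omega)
    have h4 := hs (m + 1 + i + 1) (by omega)
    have e1 := hc i (by omega)
    have e2 := hc (i + 2) hi
    simp only [add_assoc, Nat.reduceAdd] at h1 h2 h3 h4 e1 e2 ⊢
    constructor
    · intro h
      rw [h, e1] at e2
      have := near _ _ e2
      have := near _ _ e2.symm
      omega
    · intro h
      rw [h, ← e1] at e2
      have := near _ _ e2
      have := near _ _ e2.symm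
      omega
  have step : ∀ ε : ℤ, (ε = 1 ∨ ε = -1) → (1 ≤ m → x (m + 1 + 1) - x (m + 1) = ε * (x 1 - x 0)) →
      ∀ i ≤ m, x (m + 1 + i) - x (m + 1) = ε * (x i - x 0) := by
    intro ε hε h0
    have : ∀ i, i + 1 ≤ m → x (m + 1 + (i + 1)) - x (m + 1 + i) = ε * (x (i + 1) - x i) := by
      intro i
      induction i with
      | zero => exact h0
      | succ i ih =>
        intro hi
        have h1 := hs i (by omega)
        have h2 := hs (i + 1) (by omega)
        have h3 := hs (m + 1 + i) (by omega)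
        have h4 := hs (m + 1 + i + 1) (by omega)
        have h5 := turn i hi
        have h6 := ih (by omega)
        simp only [add_assoc, Nat.reduceAdd] at h1 h2 h3 h4 h5 h6 ⊢
        rcases hε with rfl | rfl <;> omega
    intro i
    induction i with
    | zero => simp
    | succ i ih =>
      intro hi
      have := this i hi
      have := ih (by omega)
      linarith
  have hl := hs m (by omega)
  have iv := ivt x m fun i hi => hs i (by omega)
  obtain hd | hd : (∀ i ≤ m, x (m + 1 + i) - x (m + 1) = 1 * (x i - x 0)) ∨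
      ∀ i ≤ m, x (m + 1 + i) - x (m + 1) = -1 * (x i - x 0) := by
    by_cases e : 1 ≤ m → x (m + 1 + 1) - x (m + 1) = 1 * (x 1 - x 0)
    · exact .inl (step 1 (.inl rfl) e)
    · refine .inr (step (-1) (.inr rfl) fun hm => ?_)
      have h1 := hs 0 (by omega)
      have h2 := hs (m + 1) (by omega)
      simp only [zero_add] at h1
      omega
  · obtain h | h | h := lt_trichotomy (x (m + 1)) (x 0)
    · exfalso
      obtain ⟨i0, hi0, e0⟩ := iv (x (m + 1) + 1) (by omega)
      have := hd i0 hi0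
      have := hx (m + 1 + i0)
      have := hx 0
      obtain ⟨j, j1, j2, j3⟩ := hB (x (m + 1 + i0)) (x 0 - x (m + 1)) (by omega) (by omega)
        (by omega)
      obtain ⟨i, hi, e⟩ := iv (j + (x 0 - x (m + 1))) (by omega)
      have := hd i hi
      exact j3 (by rw [← e, hc i hi]; congr 1; omega)
    · intro i hi
      have := hd i hi
      omega
    · exfalso
      obtain ⟨i0, hi0, e0⟩ := iv (x (m + 1) - 1) (by omega)
      have := hd i0 hi0
      have := hx (m + 1 + i0)
      have := hx 0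
      obtain ⟨j, j1, j2, j3⟩ := hB (x 0) (x (m + 1) - x 0) (by omega) (by omega) (by omega)
      obtain ⟨i, hi, e⟩ := iv j (by omega)
      have := hd i hi
      exact j3 (by rw [← e, hc i hi]; congr 1; omega)
  · exfalso
    have fin : ∀ y, (x 0 ≤ y ∧ y ≤ x m) ∨ (x m ≤ y ∧ y ≤ x 0) →
        2 * y ≠ x 0 + x (m + 1) + 1 ∧ 2 * y ≠ x 0 + x (m + 1) + 2 ∧
        2 * y ≠ x 0 + x (m + 1) - 1 ∧ 2 * y ≠ x 0 + x (m + 1) - 2 := fun y hy => by
      obtain ⟨i, hi, e⟩ := iv y hy
      have := hd i hi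
      have := near _ _ (hc i hi)
      have := near _ _ (hc i hi).symm
      omega
    obtain h | h | h := lt_trichotomy (x (m + 1)) (x 0)
    · have := fin ((x 0 + x (m + 1)) / 2 + 1) (by omega)
      omega
    · have := fin (x m) (by omega)
      omega
    · have := fin ((x 0 + x (m + 1) + 1) / 2 - 1) (by omega)
      omega

theorem good_of {q : ℕ} (n : ℕ) (col : ℤ → Fin q)
    (hA : ∀ i, 0 ≤ i → col i ≠ col (i + 1) ∧ col i ≠ col (i + 2))
    (hB : ∀ i d : ℤ, 0 ≤ i → 0 < d → i + 2 * d ≤ n →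
      ∃ j, i ≤ j ∧ j < i + d ∧ col j ≠ col (j + d)) :
    Good (pathGraph n) 1 q fun v => {col v} := by
  refine ⟨fun _ => card_singleton _, fun l hl w hw ⟨i, hi, hne⟩ a ha => ?_⟩
  by_contra hc
  push Not at hc
  obtain ⟨m, rfl⟩ : ∃ m, l = m + 1 := ⟨l - 1, by omega⟩
  have := walk n col hA hB m (fun i => (w i : ℕ)) (fun i => ⟨by omega, by omega⟩)
    (fun i hi => by have := pathGraph_adj.1 (hw i hi); omega)
    (fun i hi => by
      rw [← mem_singleton.1 (ha i (by omega)), ← mem_singleton.1 (ha (m + 1 + i) (by omega))]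
      exact hc i (by omega)) i (by omega)
  exact hne (Fin.ext (by omega))

/-- The Thue–Morse sequence. -/
def tm (n : ℕ) : ℕ := (Nat.digits 2 n).sum % 2

theorem tm_rec (n : ℕ) : tm n = (tm (n / 2) + n) % 2 := by
  rcases Nat.eq_zero_or_pos n with rfl | h
  · rfl
  · unfold tm
    rw [Nat.digits_def' one_lt_two h, List.sum_cons]
    omega

theorem tm_lt (n : ℕ) : tm n < 2 := Nat.mod_lt _ two_pos

theorem tm_even (j : ℕ) (h : j % 2 = 0) : tm (j + 1) ≠ tm j := by
  have h1 := tm_rec j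
  have h2 := tm_rec (j + 1)
  rw [show (j + 1) / 2 = j / 2 by omega] at h2
  omega

theorem overlap (d : ℕ) : ∀ i, 0 < d → ∃ j, i ≤ j ∧ j ≤ i + d ∧ tm j ≠ tm (j + d) := by
  induction d using Nat.strong_induction_on with
  | _ d ih =>
    intro i hd
    by_contra hc
    push Not at hc
    rcases Nat.even_or_odd' d with ⟨e, rfl | rfl⟩
    · obtain ⟨k, k1, k2, k3⟩ := ih e (by omega) (i / 2) (by omega)
      have h := hc (max i (2 * k)) (by omega) (by omega)
      rw [tm_rec, tm_rec (_ + _), show max i (2 * k) / 2 = k by omega,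
        show (max i (2 * k) + 2 * e) / 2 = k + e by omega] at h
      have := tm_lt k
      have := tm_lt (k + e)
      omega
    · have alt : ∀ j, i ≤ j → j < i + 2 * (2 * e + 1) → tm (j + 1) ≠ tm j := by
        intro j j1 j2
        by_cases hj : j % 2 = 0
        · exact tm_even j hj
        by_cases hj' : j < i + (2 * e + 1)
        · rw [hc j j1 (by omega), hc (j + 1) (by omega) (by omega), add_right_comm]
          exact tm_even _ (by omega)
        · obtain ⟨k, rfl⟩ : ∃ k, j = k + (2 * e + 1) := ⟨j - (2 * e + 1), by omega⟩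
          rw [add_right_comm, ← hc k (by omega) (by omega), ← hc (k + 1) (by omega) (by omega)]
          exact tm_even _ (by omega)
      rcases Nat.eq_zero_or_pos e with rfl | he
      · exact alt i le_rfl (by omega) (hc i le_rfl (by omega)).symm
      · have odd : ∀ k, tm (2 * k + 1 + 1) ≠ tm (2 * k + 1) → tm (k + 1) = tm k := fun k h => by
          rw [tm_rec, tm_rec (2 * k + 1), show (2 * k + 1 + 1) / 2 = k + 1 by omega,
            show (2 * k + 1) / 2 = k by omega] at h
          have := tm_lt k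
          have := tm_lt (k + 1)
          omega
        have h1 := odd (i / 2) (alt _ (by omega) (by omega))
        have h2 := odd (i / 2 + 1) (alt _ (by omega) (by omega))
        by_cases hp : (i / 2) % 2 = 0
        · exact tm_even _ hp h1
        · exact tm_even _ (by omega) h2

/-- A square-free ternary sequence. -/
def sq (n : ℕ) : ℕ := tm (n + 1) + 1 - tm n

theorem sq_free (i d : ℕ) (hd : 0 < d) : ∃ j, i ≤ j ∧ j < i + d ∧ sq j ≠ sq (j + d) := by
  by_contra hc
  push Not at hc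
  have : ∀ k ≤ d, tm (i + k + d) + tm i = tm (i + k) + tm (i + d) := by
    intro k
    induction k with
    | zero => intro; simp [add_comm]
    | succ k ih =>
      intro hk
      have h1 := ih (by omega)
      have h2 := hc (i + k) (by omega) (by omega)
      unfold sq at h2
      have := tm_lt (i + k)
      have := tm_lt (i + k + d)
      rw [show i + (k + 1) + d = i + k + d + 1 by omega, ← add_assoc]
      omega
  obtain ⟨j, j1, j2, j3⟩ := overlap d i hd
  obtain ⟨k, rfl⟩ : ∃ k, j = i + k := ⟨j - i, by omega⟩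
  have h1 := this k (by omega)
  have h2 := this d le_rfl
  have := tm_lt i
  have := tm_lt (i + d)
  have := tm_lt (i + d + d)
  omega

theorem sq_lt (n : ℕ) : sq n < 3 := by
  have := tm_lt (n + 1)
  unfold sq
  omega

theorem sq_ne (n : ℕ) : sq n ≠ sq (n + 1) := by
  obtain ⟨j, j1, j2, j3⟩ := sq_free n 1 one_pos
  obtain rfl : j = n := by omega
  exact j3

/-- The ternary sequence with a fourth letter inserted after every two letters. -/
def c4 (n : ℕ) : ℕ := if n % 3 = 2 then 3 else sq (2 * (n / 3) + n % 3)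

theorem c4_lt (n : ℕ) : c4 n < 4 := by
  have := sq_lt (2 * (n / 3) + n % 3)
  unfold c4
  split_ifs <;> omega

theorem c4_eq {a b : ℕ} (h : c4 a = c4 b) : (a % 3 = 2 ∧ b % 3 = 2) ∨
    (a % 3 ≠ 2 ∧ b % 3 ≠ 2 ∧ sq (2 * (a / 3) + a % 3) = sq (2 * (b / 3) + b % 3)) := by
  have := sq_lt (2 * (a / 3) + a % 3)
  have := sq_lt (2 * (b / 3) + b % 3)
  unfold c4 at h
  split_ifs at h <;> omega

theorem c4_near (a d : ℕ) (h1 : 0 < d) (h2 : d < 3) : c4 a ≠ c4 (a + d) := by
  intro h
  rcases c4_eq h with h | ⟨h3, h4, h5⟩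
  · omega
  · rw [show 2 * ((a + d) / 3) + (a + d) % 3 = 2 * (a / 3) + a % 3 + 1 by omega] at h5
    exact sq_ne _ h5

theorem c4_free (i d : ℕ) (hd : 0 < d) : ∃ j, i ≤ j ∧ j < i + d ∧ c4 j ≠ c4 (j + d) := by
  by_contra hc
  push Not at hc
  by_cases h3 : d < 3
  · exact c4_near i d hd h3 (hc i le_rfl (by omega))
  have h0 := c4_eq (hc (i + (2 - i % 3)) (by omega) (by omega))
  obtain ⟨e, rfl⟩ : ∃ e, d = 3 * e := ⟨d / 3, by omega⟩
  obtain ⟨k, k1, k2, k3⟩ := sq_free (2 * (i / 3) + i % 3) (2 * e) (by omega)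
  rcases c4_eq (hc (3 * (k / 2) + k % 2) (by omega) (by omega)) with h | ⟨-, -, h⟩
  · omega
  · apply k3
    convert h using 2 <;> omega

theorem piW_eq {V : Type} (G : SimpleGraph V) (r : ℕ) (hr : 1 < r) (h : ∃ c, Good G 1 r c)
    (hl : ∀ p q c, 1 ≤ p → Good G p q c → r * p ≤ q) : piW G = r := by
  refine IsLeast.csInf_eq ⟨⟨1, r, le_rfl, hr, h, by simp⟩, ?_⟩
  rintro _ ⟨p, q, hp, -, ⟨c, hc⟩, rfl⟩
  rw [le_div_iff₀ (by exact_mod_cast hp)]
  exact_mod_cast hl p q c hp hc

theorem result : piW (pathGraph 5) = 3 ∧ ∀ n, 6 ≤ n → piW (pathGraph n) = 4 := by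
  refine ⟨piW_eq _ 3 (by omega) ⟨_, good_of 5 (fun i => ⟨(i % 3).toNat, by omega⟩) ?_ ?_⟩ ?_,
    fun n hn => piW_eq _ 4 (by omega)
      ⟨_, good_of n (fun i => ⟨c4 i.toNat, c4_lt _⟩) ?_ ?_⟩ ?_⟩
  · intro i _
    simp only [ne_eq, Fin.mk.injEq]
    omega
  · intro i d hi hd h
    refine ⟨i, le_rfl, by omega, ?_⟩
    simp only [ne_eq, Fin.mk.injEq]
    omega
  · intro p q c hp hc
    exact three hc hp (u := 0) (v := 1) (w := 2) (pathGraph_adj.2 (.inl rfl))
      (pathGraph_adj.2 (.inl rfl)) (by decide)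
  · intro i hi
    lift i to ℕ using hi
    simp only [ne_eq, Fin.mk.injEq]
    exact ⟨c4_near i 1 (by omega) (by omega), c4_near i 2 (by omega) (by omega)⟩
  · intro i d hi hd _
    lift i to ℕ using hi
    lift d to ℕ using hd.le
    obtain ⟨j, j1, j2, j3⟩ := c4_free i d (by omega)
    refine ⟨j, by omega, by omega, ?_⟩
    simp only [ne_eq, Fin.mk.injEq]
    exact j3
  · intro p q c hp hc
    refine six hc hp (fun i => ⟨min i 5, by omega⟩) (fun i hi => pathGraph_adj.2 (.inl ?_))
      fun i hi j hj e => ?_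
    · simp only
      omega
    · simp only [Fin.mk.injEq] at e
      omega

end Pool.Agent.Results.MP_c566a2_co.Paths
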